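import Pool.Agent.helper11.VDI.SpecU
import Pool.Agent.helper34.VD.NGD

set_option autoImplicit false

open scoped ContDiff Topology InnerProductSpace ENNReal ComplexConjugate
open MeasureTheory Filter Set

namespace Pool.Agent.VDI

open Pool.Agent.RPQ (PN PJ UN upd IsOp)
open Pool.Agent.VQ (CH AdZ perZ rk)
open Pool.Agent.VN (aN)
open Pool.Agent.VD
open Pool.Agent.VDE (UWLD FDX)

theorem NGQ_gram {d : ℕ} {G : V d → V d →L[ℝ] V d} (hG : IsMetric G) (x u v : V d) (β : ℝ) :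
    ⟪G x u, u⟫_ℝ * ⟪G x v, v⟫_ℝ - ⟪G x u, v⟫_ℝ ^ 2 =
      ⟪G x u, u⟫_ℝ * ⟪G x (v - β • u), v - β • u⟫_ℝ - ⟪G x u, v - β • u⟫_ℝ ^ 2 := by
  have h2 : ⟪G x v, u⟫_ℝ = ⟪G x u, v⟫_ℝ := by rw [hG.symm, real_inner_comm]
  rw [map_sub, map_smul, inner_sub_left, inner_sub_right, inner_sub_right, inner_sub_right,
    real_inner_smul_left, real_inner_smul_left, real_inner_smul_right,
    real_inner_smul_right, h2]
  ring

theorem NGQ_up {d : ℕ} {G : V d → V d →L[ℝ] V d} (x : V d) (M : ℝ) (hM : ‖G x‖ ≤ M) (w : V d) :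
    ⟪G x w, w⟫_ℝ ≤ M * ‖w‖ ^ 2 := by
  refine (real_inner_le_norm _ _).trans ?_
  have h2 := mul_le_mul_of_nonneg_right (((G x).le_opNorm w).trans
    (mul_le_mul_of_nonneg_right hM (norm_nonneg w))) (norm_nonneg w)
  refine h2.trans (le_of_eq ?_)
  ring

theorem NGQ_nn {d : ℕ} {G : V d → V d →L[ℝ] V d} (hG : IsMetric G) (x w : V d) : 0 ≤ ⟪G x w, w⟫_ℝ := by
  by_cases hw : w = 0
  · rw [hw]; simp
  · exact (hG.pos x w hw).le

/-- from orthonormal pairs to all pairs -/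
theorem NGQ_all (hRSY : VD.RSY_stmt) {d : ℕ} {G : V d → V d →L[ℝ] V d} (hG : IsMetric G) (x : V d) (c M k : ℝ)
    (hM : ‖G x‖ ≤ M) (hk : 0 ≤ k) (hkc : k * M ^ 2 ≤ c)
    (h : ∀ u v : V d, ‖u‖ = 1 → ‖v‖ = 1 → ⟪u, v⟫_ℝ = 0 → ⟪G x (Riem G x u v v), u⟫_ℝ ≤ -c) (u v : V d) :
    ⟪G x (Riem G x u v v), u⟫_ℝ ≤ -k * (⟪G x u, u⟫_ℝ * ⟪G x v, v⟫_ℝ - ⟪G x u, v⟫_ℝ ^ 2) := by
  by_cases hu : u = 0
  · subst hu
    simp
  have hnu : 0 < ‖u‖ := norm_pos_iff.2 hu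
  obtain ⟨β, hβ⟩ : ∃ β : ℝ, β = ‖u‖⁻¹ * (‖u‖⁻¹ * ⟪u, v⟫_ℝ) := ⟨_, rfl⟩
  obtain ⟨w, hw⟩ : ∃ w : V d, w = v - β • u := ⟨_, rfl⟩
  have e1 : u = ‖u‖ • (‖u‖⁻¹ • u) := by rw [smul_smul, mul_inv_cancel₀ hnu.ne', one_smul]
  have e2 : v = (β * ‖u‖) • (‖u‖⁻¹ • u) + ‖w‖ • (‖w‖⁻¹ • w) := by
    have h1 : ‖w‖ • (‖w‖⁻¹ • w) = w := by
      by_cases hw0 : w = 0
      · rw [hw0]; simp
      · rw [smul_smul, mul_inv_cancel₀ (norm_pos_iff.2 hw0).ne', one_smul]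
    rw [h1, smul_smul, mul_assoc, mul_inv_cancel₀ hnu.ne', mul_one, hw]
    abel
  have e3 : ⟪u, w⟫_ℝ = 0 := by
    rw [hw, hβ, inner_sub_right, real_inner_smul_right, real_inner_self_eq_norm_sq]
    field_simp
    ring
  have h2 := NGD_scale hRSY hG x (‖u‖⁻¹ • u) (‖w‖⁻¹ • w) ‖u‖ (β * ‖u‖) ‖w‖
  rw [← e1, ← e2] at h2
  rw [NGQ_gram hG x u v β, ← hw]
  have h5 : ⟪G x u, u⟫_ℝ * ⟪G x w, w⟫_ℝ ≤ (M * ‖u‖ ^ 2) * (M * ‖w‖ ^ 2) :=
    mul_le_mul (NGQ_up x M hM u) (NGQ_up x M hM w) (NGQ_nn hG x w) ((NGQ_nn hG x u).trans (NGQ_up x M hM u))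
  have h6 : k * (⟪G x u, u⟫_ℝ * ⟪G x w, w⟫_ℝ - ⟪G x u, w⟫_ℝ ^ 2) ≤ c * (‖u‖ * ‖w‖) ^ 2 := by
    have h7 : ⟪G x u, u⟫_ℝ * ⟪G x w, w⟫_ℝ - ⟪G x u, w⟫_ℝ ^ 2 ≤ M ^ 2 * (‖u‖ * ‖w‖) ^ 2 := by
      have h8 := sq_nonneg ⟪G x u, w⟫_ℝ
      nlinarith
    have h9 := mul_le_mul_of_nonneg_left h7 hk
    have h10 := mul_le_mul_of_nonneg_right hkc (sq_nonneg (‖u‖ * ‖w‖))
    nlinarith
  have h11 : ⟪G x (Riem G x u v v), u⟫_ℝ ≤ -(c * (‖u‖ * ‖w‖) ^ 2) := by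
    rw [h2]
    by_cases hw0 : w = 0
    · rw [hw0]; simp
    · have hnw : 0 < ‖w‖ := norm_pos_iff.2 hw0
      have h1 := h (‖u‖⁻¹ • u) (‖w‖⁻¹ • w) (by rw [norm_smul, norm_inv, norm_norm, inv_mul_cancel₀ hnu.ne'])
        (by rw [norm_smul, norm_inv, norm_norm, inv_mul_cancel₀ hnw.ne'])
        (by rw [real_inner_smul_left, real_inner_smul_right, e3, mul_zero, mul_zero])
      have h3 := mul_le_mul_of_nonneg_left h1 (sq_nonneg (‖u‖ * ‖w‖))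
      linarith
  linarith

theorem NGQ_proof (hRSY : VD.RSY_stmt) (hRCN : VD.RCN_stmt) : NGQ_stmt := by
  intro d K G0 hK hG0 hneg
  obtain ⟨M0, hM0, hM0b⟩ := NGD_bdd hG0 hK
  obtain ⟨c, hc, hcl⟩ := NGD_lb hG0 hK
  obtain ⟨c0, hc0, hc0l⟩ := NGD_neg hG0 hneg hK
  have hci : 0 < c⁻¹ := inv_pos.2 hc
  obtain ⟨C, hC, hCm⟩ := hRCN d (max (M0 + 1) (2 * c⁻¹)) (by
    have h1 := le_max_left (M0 + 1) (2 * c⁻¹)
    linarith)
  have hCpos : 0 < C := by linarith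
  have hM1 : 0 < M0 + 1 := by linarith
  obtain ⟨q, hq⟩ := exists_nat_ge (max 1 (2 * (M0 + 1) ^ 2 / c0))
  have hq1 : (1 : ℝ) ≤ q := (le_max_left _ _).trans hq
  have hq2 : 2 * (M0 + 1) ^ 2 / c0 ≤ q := (le_max_right _ _).trans hq
  have hq0 : (0 : ℝ) < q := by linarith
  have hqk : 1 / (q : ℝ) * (M0 + 1) ^ 2 ≤ c0 / 2 := by
    rw [div_le_iff₀ hc0] at hq2
    rw [one_div, inv_mul_eq_div, div_le_div_iff₀ hq0 two_pos]
    linarith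
  refine ⟨q, min 1 (min (c / 2) (c0 / (2 * C))), by exact_mod_cast hq1,
    lt_min one_pos (lt_min (by positivity) (by positivity)), ?_⟩
  intro G' hG' hd x hx u v
  set s := min 1 (min (c / 2) (c0 / (2 * C))) with hs
  have hs0 : 0 < s := lt_min one_pos (lt_min (by positivity) (by positivity))
  have hs1 : s ≤ 1 := min_le_left _ _
  have hs2 : s ≤ c / 2 := (min_le_right _ _).trans (min_le_left _ _)
  have hs3 : C * s ≤ c0 / 2 := by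
    have h1 : s ≤ c0 / (2 * C) := (min_le_right _ _).trans (min_le_right _ _)
    have h2 : C * s ≤ C * (c0 / (2 * C)) := mul_le_mul_of_nonneg_left h1 hCpos.le
    have h3 : C * (c0 / (2 * C)) = c0 / 2 := by field_simp
    rw [h3] at h2
    exact h2
  have hdx : ∀ n ≤ 2, ‖iteratedFDeriv ℝ n (fun y => G0 y - G' y) x‖ ≤ s := fun n hn => hd n hn x hx
  have hG'b : ∀ n ≤ 2, ‖iteratedFDeriv ℝ n G' x‖ ≤ M0 + 1 := by
    intro n hn
    have h1 : iteratedFDeriv ℝ n (fun y => G0 y - G' y) x = iteratedFDeriv ℝ n G0 x - iteratedFDeriv ℝ n G' x := by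
      exact fun_iteratedFDeriv_sub_apply (hG0.smooth.of_le (by exact_mod_cast le_top)).contDiffAt
        (hG'.smooth.of_le (by exact_mod_cast le_top)).contDiffAt
    have h2 : iteratedFDeriv ℝ n G' x = iteratedFDeriv ℝ n G0 x - iteratedFDeriv ℝ n (fun y => G0 y - G' y) x := by
      rw [h1]
      abel
    rw [h2]
    refine (norm_sub_le _ _).trans ?_
    have h3 := hM0b x hx n hn
    have h4 := hdx n hn
    linarith
  have h0 : ‖G0 x - G' x‖ ≤ s := by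
    have h1 := hdx 0 (by norm_num)
    rw [norm_iteratedFDeriv_zero] at h1
    exact h1
  have hinv0 : ‖(G0 x).inverse‖ ≤ max (M0 + 1) (2 * c⁻¹) := by
    have h1 := NGD_invb hG0 x c hc (hcl x hx)
    have h2 : c⁻¹ ≤ 2 * c⁻¹ := by linarith
    exact h1.trans (h2.trans (le_max_right _ _))
  have hinv1 : ‖(G' x).inverse‖ ≤ max (M0 + 1) (2 * c⁻¹) := by
    have h1 := NGD_invb hG' x (c / 2) (by positivity) (by
      intro w
      have h2 := hcl x hx w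
      have h3 : ⟪G' x w, w⟫_ℝ = ⟪G0 x w, w⟫_ℝ - ⟪(G0 x - G' x) w, w⟫_ℝ := by
        rw [ContinuousLinearMap.sub_apply, inner_sub_left]
        ring
      have h4 : ⟪(G0 x - G' x) w, w⟫_ℝ ≤ s * ‖w‖ ^ 2 := by
        refine (real_inner_le_norm _ _).trans ?_
        have h5 := (G0 x - G' x).le_opNorm w
        have h6 : ‖(G0 x - G' x) w‖ ≤ s * ‖w‖ := h5.trans (mul_le_mul_of_nonneg_right h0 (norm_nonneg _))
        calc ‖(G0 x - G' x) w‖ * ‖w‖ ≤ (s * ‖w‖) * ‖w‖ := mul_le_mul_of_nonneg_right h6 (norm_nonneg _)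
          _ = s * ‖w‖ ^ 2 := by ring
      have h7 : s * ‖w‖ ^ 2 ≤ c / 2 * ‖w‖ ^ 2 := mul_le_mul_of_nonneg_right hs2 (by positivity)
      rw [h3]
      linarith)
    have h2 : (c / 2)⁻¹ = 2 * c⁻¹ := by field_simp
    rw [h2] at h1
    exact h1.trans (le_max_right _ _)
  have hM' : ‖G' x‖ ≤ M0 + 1 := by
    have h1 := hG'b 0 (by norm_num)
    rw [norm_iteratedFDeriv_zero] at h1
    exact h1
  have key : ∀ u v : V d, ‖u‖ = 1 → ‖v‖ = 1 → ⟪u, v⟫_ℝ = 0 → ⟪G' x (Riem G' x u v v), u⟫_ℝ ≤ -(c0 / 2) := by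
    intro u v hu hv huv
    obtain ⟨h1, -⟩ := hCm G0 G' x s hG0 hG' hs0.le (by
      intro n hn
      refine ⟨?_, (hG'b n hn).trans (le_max_left _ _)⟩
      have h3 := hM0b x hx n hn
      exact (by linarith : ‖iteratedFDeriv ℝ n G0 x‖ ≤ M0 + 1).trans (le_max_left _ _)) hinv0 hinv1 hdx u v
    rw [hu, hv] at h1
    have h2 := hc0l x hx u v hu hv huv
    have h3 := (abs_le.1 h1).1
    have h4 : C * s * 1 ^ 2 * 1 ^ 2 = C * s := by ring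
    rw [h4] at h3
    linarith
  exact NGQ_all hRSY hG' x (c0 / 2) (M0 + 1) (1 / q) hM' (by positivity) hqk key u v

end Pool.Agent.VDI
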